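import Pool.Agent.H424.LE.Kernel

/-! Counting pairs of shifted ratios in a set of pairs, with the local energy. -/

set_option autoImplicit false

namespace Pool.Agent.H424.LE

open Finset Pool.Agent.W27.TQ Pool.Agent.W27.TP Pool.Agent.W27.BG

variable {p : ℕ} [Fact p.Prime]

/-- the bound for the energy -/
noncomputable def EQ (p Y0 M T N : ℕ) (a Q : ℝ) : ℝ :=
  8 * T * p ^ 2 / ((M : ℝ) ^ 2 * N) * (Y0 * Q) + 4 * p * Y0 / (M : ℝ) ^ 2 * (Y0 * a ^ 3)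

theorem pairs_sum (N : ℕ) (A : Finset (ZMod p)) (y : ℕ) (hy : (y : ZMod p) ≠ 0) :
    ∑ d : ZMod p, (pairs N (SS A d y)).card ≤ (quads N A).card := by
  classical
  rw [← Finset.card_sigma]
  refine Finset.card_le_card_of_injOn
    (fun r => ((r.2.2, r.2.1), (r.2.2 + (y : ZMod p) * r.1, r.2.1 + (y : ZMod p) * r.1))) ?_ ?_
  · rintro ⟨d, s, s'⟩ hr
    rw [Finset.mem_coe, Finset.mem_sigma] at hr
    have h := hr.2
    unfold pairs SS at h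
    rw [Finset.mem_filter, Finset.mem_product, Finset.mem_filter, Finset.mem_filter] at h
    obtain ⟨⟨⟨h1, h2⟩, ⟨h3, h4⟩⟩, h5⟩ := h
    simp only at h1 h2 h3 h4 h5
    rw [Finset.mem_coe]
    unfold quads
    rw [Finset.mem_filter, Finset.mem_product, Finset.mem_product, Finset.mem_product]
    exact ⟨⟨⟨h3, h1⟩, ⟨h4, h2⟩⟩, by simp only; ring, h5⟩
  · rintro ⟨d, s, s'⟩ _ ⟨d', t, t'⟩ _ hh
    simp only [Prod.mk.injEq] at hh
    obtain ⟨⟨rfl, rfl⟩, h1, -⟩ := hh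
    have h2 := mul_left_cancel₀ hy (add_left_cancel h1)
    subst h2
    rfl

theorem energy (Y0 M T N : ℕ) (hM : 1 ≤ M) (hMp : M ≤ p) (hYp : Y0 < p) (hYM : 2 * (Y0 * M) < p)
    (hN : 1 ≤ N) (hNp : N ≤ p) (h8 : 8 * (N * M) ≤ p)
    (hT : ∀ m : ℕ, 1 ≤ m → m ≤ Y0 * M → m.divisors.card ≤ T) (A : Finset (ZMod p)) :
    ∑ d : ZMod p, ∑ u : ZMod p, GG Y0 M (SS A d) u ^ 2 ≤ EQ p Y0 M T N A.card (quads N A).card := by
  classical
  have hMR : (0 : ℝ) < M := by exact_mod_cast hM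
  have hNR : (0 : ℝ) < N := by exact_mod_cast hN
  have hy0 : ∀ y ∈ Icc 1 Y0, ((y : ℕ) : ZMod p) ≠ 0 := by
    intro y hy
    rw [Finset.mem_Icc] at hy
    intro h
    rw [ZMod.natCast_eq_zero_iff] at h
    have := Nat.le_of_dvd (by omega) h
    omega
  have h1 : ∀ d : ZMod p, ∑ u : ZMod p, GG Y0 M (SS A d) u ^ 2
      ≤ 4 * T * p / (M : ℝ) ^ 3 * ∑ y ∈ Icc 1 Y0,
          2 * M * p / N * ((pairs N (SS A d y)).card : ℝ)
        + 4 * p * Y0 / (M : ℝ) ^ 2 * ∑ y ∈ Icc 1 Y0, ((SS A d y).card : ℝ) * (A.card : ℝ) := by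
    intro d
    refine (GG_sq Y0 M T hM hYM hT (SS A d)).trans ?_
    have hc : ∀ y, ((SS A d y).card : ℝ) ≤ A.card := fun y => by exact_mod_cast SS_card_le A d y
    refine add_le_add (mul_le_mul_of_nonneg_left ?_ (by positivity))
      (mul_le_mul_of_nonneg_left ?_ (by positivity))
    · exact Finset.sum_le_sum fun y _ => DD_pairs M N hMp hN hNp h8 (SS A d y)
    · refine Finset.sum_le_sum fun y _ => ?_
      rw [sq]
      exact mul_le_mul_of_nonneg_left (hc y) (Nat.cast_nonneg _)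
  refine (Finset.sum_le_sum fun d _ => h1 d).trans ?_
  rw [Finset.sum_add_distrib, ← Finset.mul_sum, ← Finset.mul_sum]
  have h2 : ∀ c : ℝ, ∑ d : ZMod p, ∑ y ∈ Icc 1 Y0, ((SS A d y).card : ℝ) * c
      = Y0 * ((A.card : ℝ) ^ 2 * c) := by
    intro c
    rw [Finset.sum_comm]
    have h3 : ∀ y ∈ Icc 1 Y0, ∑ d : ZMod p, ((SS A d y).card : ℝ) * c = (A.card : ℝ) ^ 2 * c := by
      intro y hy
      rw [← Finset.sum_mul]
      congr 1
      exact_mod_cast SS_sum A y (hy0 y hy)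
    rw [Finset.sum_congr rfl h3, Finset.sum_const, Nat.card_Icc, nsmul_eq_mul, Nat.add_sub_cancel]
  have h3 : ∑ d : ZMod p, ∑ y ∈ Icc 1 Y0, 2 * M * p / N * ((pairs N (SS A d y)).card : ℝ) ≤
      2 * M * p / N * (Y0 * (quads N A).card) := by
    rw [Finset.sum_comm]
    have h4 : ∀ y ∈ Icc 1 Y0, ∑ d : ZMod p, 2 * (M : ℝ) * p / N * ((pairs N (SS A d y)).card : ℝ) ≤
        2 * M * p / N * (quads N A).card := by
      intro y hy
      rw [← Finset.mul_sum]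
      refine mul_le_mul_of_nonneg_left ?_ (by positivity)
      exact_mod_cast pairs_sum N A y (hy0 y hy)
    refine (Finset.sum_le_sum h4).trans ?_
    rw [Finset.sum_const, Nat.card_Icc, nsmul_eq_mul, Nat.add_sub_cancel]
    apply le_of_eq
    ring
  rw [h2]
  unfold EQ
  have h5 : 4 * (T : ℝ) * p / (M : ℝ) ^ 3 * ∑ d : ZMod p, ∑ y ∈ Icc 1 Y0,
      2 * M * p / N * ((pairs N (SS A d y)).card : ℝ) ≤
      8 * T * p ^ 2 / ((M : ℝ) ^ 2 * N) * (Y0 * (quads N A).card) := by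
    refine (mul_le_mul_of_nonneg_left h3 (by positivity)).trans (le_of_eq ?_)
    field_simp
    ring
  have h6 : (A.card : ℝ) ^ 2 * A.card = (A.card : ℝ) ^ 3 := by ring
  rw [h6]
  linarith

/-- the total number of bad pairs -/
theorem bad_count (Y0 M T N N1 : ℕ) (hM : 1 ≤ M) (hMp : M ≤ p) (hYp : Y0 < p)
    (hYM : 2 * (Y0 * M) < p) (hN : 8 * (M * N) ≤ p)
    (hN1 : 1 ≤ N1) (hNp1 : N1 ≤ p) (h81 : 8 * (N1 * M) ≤ p)
    (hT : ∀ m : ℕ, 1 ≤ m → m ≤ Y0 * M → m.divisors.card ≤ T) (A : Finset (ZMod p))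
    (Z : Finset (ZMod p × ZMod p)) :
    (∑ y ∈ Icc 1 Y0, RR N A Z (y : ZMod p)) ^ 2 ≤
      Z.card * EQ p Y0 M T N1 A.card (quads N1 A).card := by
  classical
  have hy0 : ∀ y ∈ Icc 1 Y0, ((y : ℕ) : ZMod p) ≠ 0 := by
    intro y hy
    rw [Finset.mem_Icc] at hy
    intro h
    rw [ZMod.natCast_eq_zero_iff] at h
    have := Nat.le_of_dvd (by omega) h
    omega
  have h1 : ∑ y ∈ Icc 1 Y0, RR N A Z (y : ZMod p) ≤ ∑ q ∈ Z, GG Y0 M (SS A (q.2 - q.1)) q.1 := by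
    refine (Finset.sum_le_sum fun y hy => RR_le M N hM hN A Z y (hy0 y hy)).trans ?_
    rw [Finset.sum_comm]
    rfl
  have h0 : 0 ≤ ∑ y ∈ Icc 1 Y0, RR N A Z (y : ZMod p) := by
    unfold RR
    positivity
  have h2 : (∑ q ∈ Z, GG Y0 M (SS A (q.2 - q.1)) q.1) ^ 2
      ≤ Z.card * ∑ q ∈ Z, GG Y0 M (SS A (q.2 - q.1)) q.1 ^ 2 := sq_sum_le_card_mul_sum_sq
  have h3 : ∑ q ∈ Z, GG Y0 M (SS A (q.2 - q.1)) q.1 ^ 2
      ≤ ∑ d : ZMod p, ∑ u : ZMod p, GG Y0 M (SS A d) u ^ 2 := by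
    calc ∑ q ∈ Z, GG Y0 M (SS A (q.2 - q.1)) q.1 ^ 2
        ≤ ∑ q : ZMod p × ZMod p, GG Y0 M (SS A (q.2 - q.1)) q.1 ^ 2 :=
          Finset.sum_le_sum_of_subset_of_nonneg (Finset.subset_univ _) fun _ _ _ => by positivity
      _ = ∑ u : ZMod p, ∑ u' : ZMod p, GG Y0 M (SS A (u' - u)) u ^ 2 := Fintype.sum_prod_type _
      _ = ∑ u : ZMod p, ∑ d : ZMod p, GG Y0 M (SS A d) u ^ 2 := by
          refine Finset.sum_congr rfl fun u _ => ?_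
          exact (Equiv.subRight u).sum_comp (fun d => GG Y0 M (SS A d) u ^ 2)
      _ = _ := Finset.sum_comm
  calc (∑ y ∈ Icc 1 Y0, RR N A Z (y : ZMod p)) ^ 2
      ≤ (∑ q ∈ Z, GG Y0 M (SS A (q.2 - q.1)) q.1) ^ 2 := pow_le_pow_left₀ h0 h1 2
    _ ≤ Z.card * ∑ q ∈ Z, GG Y0 M (SS A (q.2 - q.1)) q.1 ^ 2 := h2
    _ ≤ _ := mul_le_mul_of_nonneg_left
        (h3.trans (energy Y0 M T N1 hM hMp hYp hYM hN1 hNp1 h81 hT A)) (Nat.cast_nonneg _)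

/-- some shift has few bad pairs -/
theorem exists_shift (Y0 M T N N1 : ℕ) (hY : 1 ≤ Y0) (hM : 1 ≤ M) (hMp : M ≤ p) (hYp : Y0 < p)
    (hYM : 2 * (Y0 * M) < p) (hN : 8 * (M * N) ≤ p)
    (hN1 : 1 ≤ N1) (hNp1 : N1 ≤ p) (h81 : 8 * (N1 * M) ≤ p)
    (hT : ∀ m : ℕ, 1 ≤ m → m ≤ Y0 * M → m.divisors.card ≤ T) (A : Finset (ZMod p))
    (Z : Finset (ZMod p × ZMod p)) :
    ∃ y : ℕ, 1 ≤ y ∧ y ≤ Y0 ∧ (Y0 * RR N A Z (y : ZMod p)) ^ 2 ≤
      Z.card * EQ p Y0 M T N1 A.card (quads N1 A).card := by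
  classical
  obtain ⟨y, hy, hmin⟩ := Finset.exists_min_image (Icc 1 Y0)
    (fun y : ℕ => RR N A Z (y : ZMod p)) ⟨1, Finset.mem_Icc.2 ⟨le_rfl, hY⟩⟩
  rw [Finset.mem_Icc] at hy
  refine ⟨y, hy.1, hy.2, ?_⟩
  refine le_trans ?_ (bad_count Y0 M T N N1 hM hMp hYp hYM hN hN1 hNp1 h81 hT A Z)
  refine pow_le_pow_left₀ ?_ ?_ 2
  · unfold RR
    positivity
  · calc (Y0 : ℝ) * RR N A Z (y : ZMod p) = ∑ _y' ∈ Icc 1 Y0, RR N A Z (y : ZMod p) := by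
          rw [Finset.sum_const, Nat.card_Icc, nsmul_eq_mul, Nat.add_sub_cancel]
      _ ≤ _ := Finset.sum_le_sum fun y' hy' => hmin y' hy'

/-- numerical bound for the energy -/
theorem EQ_le (p N M Y0 T : ℕ) (hp : 0 < p) (hN : 1 ≤ N) (hM : 1 ≤ M) (hpM : p < 32 * (N * M))
    (a Q : ℝ) (ha : 0 ≤ a) (hQ : 0 ≤ Q) :
    EQ p Y0 M T N a Q ≤ 8192 * (T * N * Y0 * Q + (N : ℝ) ^ 2 * Y0 ^ 2 * a ^ 3 / p) := by
  have hMR : (0 : ℝ) < M := by exact_mod_cast hM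
  have hNR : (0 : ℝ) < N := by exact_mod_cast hN
  have hpR : (0 : ℝ) < p := by exact_mod_cast hp
  have h1 : (p : ℝ) / M ≤ 32 * N := by
    rw [div_le_iff₀ hMR]
    have : (p : ℝ) < 32 * (N * M) := by exact_mod_cast hpM
    linarith
  have h6 : (p : ℝ) ^ 2 / (M : ℝ) ^ 2 ≤ 1024 * (N : ℝ) ^ 2 := by
    have h7 : ((p : ℝ) / (M : ℝ)) ^ 2 ≤ (32 * (N : ℝ)) ^ 2 :=
      pow_le_pow_left₀ (by positivity) h1 2
    rw [div_pow] at h7
    refine h7.trans (le_of_eq ?_)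
    ring
  unfold EQ
  have h4 : 8 * (T : ℝ) * p ^ 2 / ((M : ℝ) ^ 2 * N) * (Y0 * Q) ≤ 8192 * (T * N * Y0 * Q) := by
    calc 8 * (T : ℝ) * p ^ 2 / ((M : ℝ) ^ 2 * N) * (Y0 * Q)
        = (p : ℝ) ^ 2 / (M : ℝ) ^ 2 * (8 * T * Y0 * Q / N) := by
          field_simp
      _ ≤ 1024 * (N : ℝ) ^ 2 * (8 * T * Y0 * Q / N) :=
          mul_le_mul_of_nonneg_right h6 (by positivity)
      _ = _ := by
          field_simp
          ring
  have h5 : 4 * (p : ℝ) * Y0 / (M : ℝ) ^ 2 * (Y0 * a ^ 3)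
      ≤ 8192 * ((N : ℝ) ^ 2 * Y0 ^ 2 * a ^ 3 / p) := by
    calc 4 * (p : ℝ) * Y0 / (M : ℝ) ^ 2 * (Y0 * a ^ 3)
        = (p : ℝ) ^ 2 / (M : ℝ) ^ 2 * (4 * Y0 ^ 2 * a ^ 3 / p) := by
          field_simp
      _ ≤ 1024 * (N : ℝ) ^ 2 * (4 * Y0 ^ 2 * a ^ 3 / p) :=
          mul_le_mul_of_nonneg_right h6 (by positivity)
      _ ≤ 8192 * ((N : ℝ) ^ 2 * Y0 ^ 2 * a ^ 3 / p) := by
          have : 0 ≤ (N : ℝ) ^ 2 * Y0 ^ 2 * a ^ 3 / p := by positivity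
          calc 1024 * (N : ℝ) ^ 2 * (4 * Y0 ^ 2 * a ^ 3 / p)
              = 4096 * ((N : ℝ) ^ 2 * Y0 ^ 2 * a ^ 3 / p) := by ring
            _ ≤ _ := by linarith
  linarith

/-- numerical bound for the bad pairs -/
theorem numR (p κ ε L T Y0 n a Q R C C3 : ℝ) (hp1 : 1 ≤ p) (hκε : 8 * κ ≤ ε) (hε : 0 < ε)
    (hLR : 1 ≤ L) (hLle : L ≤ p ^ κ) (hT1 : 1 ≤ T) (hTle : T ≤ (C + 1) * p ^ κ) (hC0 : 0 < C)
    (hC30 : 0 ≤ C3) (hY : 0 < Y0) (hn : 0 < n) (ha : 0 < a) (hnY : n ≤ 2 * L * Y0)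
    (hQ0 : 0 ≤ Q)
    (hA : p ^ ε ≤ a) (hAN : p ^ (1 + ε) * Q ≤ a ^ 4 * n ^ 2) (hR0 : 0 ≤ R)
    (h1 : (Y0 * R) ^ 2 ≤ (C3 * (L * p)) *
        (8192 * (T * n * Y0 * Q + n ^ 2 * Y0 ^ 2 * a ^ 3 / p))) :
    R ≤ (24576 * C3 * (C + 1) + 1) * p ^ (-(ε / 4)) * (n * a ^ 2) := by
  have hp0 : 0 < p := by linarith
  have hL0 : 0 < L := by linarith
  have hmm : p * Q ≤ a ^ 4 * n ^ 2 * p ^ (-ε) := by
    have h2 : p ^ (1 + ε) * p ^ (-ε) = p := by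
      rw [← Real.rpow_add hp0]
      norm_num
    calc p * Q = (p ^ (1 + ε) * p ^ (-ε)) * Q := by rw [h2]
      _ = (p ^ (1 + ε) * Q) * p ^ (-ε) := by ring
      _ ≤ _ := mul_le_mul_of_nonneg_right hAN (by positivity)
  have ha3 : a ^ 3 ≤ a ^ 4 * p ^ (-ε) := by
    have h1 : 1 ≤ a * p ^ (-ε) := by
      calc (1 : ℝ) = p ^ ε * p ^ (-ε) := by
            rw [← Real.rpow_add hp0]
            norm_num
        _ ≤ _ := mul_le_mul_of_nonneg_right hA (by positivity)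
    calc a ^ 3 = a ^ 3 * 1 := (mul_one _).symm
      _ ≤ a ^ 3 * (a * p ^ (-ε)) := mul_le_mul_of_nonneg_left h1 (by positivity)
      _ = _ := by ring
  have h3 : L * p * (T * n * Y0 * Q)
      ≤ Y0 ^ 2 * (2 * L ^ 2 * T * (a ^ 4 * n ^ 2 * p ^ (-ε))) := by
    calc L * p * (T * n * Y0 * Q)
        = L * T * Y0 * n * (p * Q) := by ring
      _ ≤ L * T * Y0 * (2 * L * Y0) * (a ^ 4 * n ^ 2 * p ^ (-ε)) := by
          refine mul_le_mul ?_ hmm (by positivity) (by positivity)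
          exact mul_le_mul_of_nonneg_left hnY (by positivity)
      _ = _ := by ring
  have h4 : L * p * (n ^ 2 * Y0 ^ 2 * a ^ 3 / p)
      ≤ Y0 ^ 2 * (L ^ 2 * T * (a ^ 4 * n ^ 2 * p ^ (-ε))) := by
    calc L * p * (n ^ 2 * Y0 ^ 2 * a ^ 3 / p) = L * 1 * (n ^ 2 * Y0 ^ 2 * a ^ 3) := by
          field_simp
      _ ≤ L * (L * T) * (n ^ 2 * Y0 ^ 2 * (a ^ 4 * p ^ (-ε))) := by
          refine mul_le_mul ?_ (mul_le_mul_of_nonneg_left ha3 (by positivity)) (by positivity)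
            (by positivity)
          refine mul_le_mul_of_nonneg_left ?_ hL0.le
          exact one_le_mul_of_one_le_of_one_le hLR hT1
      _ = _ := by ring
  have h5 : L ^ 2 * T ≤ (C + 1) * p ^ (3 * κ) := by
    calc L ^ 2 * T ≤ (p ^ κ) ^ 2 * ((C + 1) * p ^ κ) :=
          mul_le_mul (pow_le_pow_left₀ hL0.le hLle 2) hTle (by positivity) (by positivity)
      _ = (C + 1) * p ^ (3 * κ) := by
          have : p ^ (3 * κ) = p ^ κ * p ^ κ * p ^ κ := by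
            rw [← Real.rpow_add hp0, ← Real.rpow_add hp0]
            congr 1
            ring
          rw [this]
          ring
  have hR2 : R ^ 2 ≤ (24576 * C3 * (C + 1)) * p ^ (3 * κ - ε) * (n ^ 2 * a ^ 4) := by
    have h2 : (C3 * (L * p)) *
        (8192 * (T * n * Y0 * Q + n ^ 2 * Y0 ^ 2 * a ^ 3 / p))
        ≤ Y0 ^ 2 * ((24576 * C3 * (C + 1)) * p ^ (3 * κ - ε) * (n ^ 2 * a ^ 4)) := by
      calc (C3 * (L * p)) *
          (8192 * (T * n * Y0 * Q + n ^ 2 * Y0 ^ 2 * a ^ 3 / p))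
          = 8192 * C3 * (L * p * (T * n * Y0 * Q)
            + L * p * (n ^ 2 * Y0 ^ 2 * a ^ 3 / p)) := by ring
        _ ≤ 8192 * C3 * (Y0 ^ 2 * (2 * L ^ 2 * T * (a ^ 4 * n ^ 2 * p ^ (-ε)))
            + Y0 ^ 2 * (L ^ 2 * T * (a ^ 4 * n ^ 2 * p ^ (-ε)))) :=
            mul_le_mul_of_nonneg_left (add_le_add h3 h4) (by positivity)
        _ = 24576 * C3 * (Y0 ^ 2 * ((L ^ 2 * T) * (a ^ 4 * n ^ 2 * p ^ (-ε)))) := by
            ring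
        _ ≤ 24576 * C3 * (Y0 ^ 2 * (((C + 1) * p ^ (3 * κ))
            * (a ^ 4 * n ^ 2 * p ^ (-ε)))) := by
            refine mul_le_mul_of_nonneg_left ?_ (by positivity)
            refine mul_le_mul_of_nonneg_left ?_ (by positivity)
            exact mul_le_mul_of_nonneg_right h5 (by positivity)
        _ = _ := by
            rw [sub_eq_add_neg, Real.rpow_add hp0]
            ring
    have h6 := h1.trans h2
    rw [mul_pow] at h6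
    exact le_of_mul_le_mul_left h6 (by positivity)
  refine le_of_sq_le_sq ?_ (by positivity)
  refine hR2.trans ?_
  have h7 : p ^ (3 * κ - ε) ≤ (p ^ (-(ε / 4))) ^ 2 := by
    rw [← Real.rpow_natCast, ← Real.rpow_mul hp0.le]
    apply Real.rpow_le_rpow_of_exponent_le hp1
    push_cast
    linarith
  obtain ⟨C4, hC4⟩ : ∃ C4 : ℝ, C4 = 24576 * C3 * (C + 1) := ⟨_, rfl⟩
  have hC40 : 0 ≤ C4 := by rw [hC4]; positivity
  rw [← hC4]
  have h2 : C4 ≤ (C4 + 1) ^ 2 := by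
    have : 0 ≤ C4 ^ 2 := sq_nonneg _
    have h3 : (C4 + 1) ^ 2 = C4 ^ 2 + 2 * C4 + 1 := by ring
    linarith
  calc C4 * p ^ (3 * κ - ε) * (n ^ 2 * a ^ 4)
      ≤ (C4 + 1) ^ 2 * (p ^ (-(ε / 4))) ^ 2 * (n ^ 2 * a ^ 4) := by
        refine mul_le_mul_of_nonneg_right ?_ (by positivity)
        exact mul_le_mul h2 h7 (by positivity) (by positivity)
    _ = _ := by ring

end Pool.Agent.H424.LE
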