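import Pool.Graph.R_pool_sql_team_seeded_f72693b1.W27.TQ.Line

/-! The mean square of the Dirichlet kernel over the differences of a set and the number of its
local pairs. -/

set_option autoImplicit false

namespace Pool.Agent.H424.LE

open Finset Pool.Agent.W27.TQ

variable {p : ℕ} [Fact p.Prime]

/-- the differences of two elements of an interval of length `N` -/
noncomputable def dif (p N : ℕ) : Finset (ZMod p) := (Ioo (-(N : ℤ)) N).image (fun j : ℤ => (j : ZMod p))

/-- the local pairs of a set -/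
noncomputable def pairs (N : ℕ) (S : Finset (ZMod p)) : Finset (ZMod p × ZMod p) :=
  (S ×ˢ S).filter fun t => t.2 - t.1 ∈ dif p N

/-- the local energy of a set -/
noncomputable def quads (N : ℕ) (A : Finset (ZMod p)) : Finset ((ZMod p × ZMod p) × (ZMod p × ZMod p)) :=
  ((A ×ˢ A) ×ˢ (A ×ˢ A)).filter fun t =>
    t.1.1 - t.1.2 = t.2.1 - t.2.2 ∧ t.1.1 - t.1.2 ∈ dif p N

theorem DD_pairs (M N : ℕ) (hM : M ≤ p) (hN : 1 ≤ N) (hNp : N ≤ p) (h8 : 8 * (N * M) ≤ p)
    (S : Finset (ZMod p)) :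
    ∑ s ∈ S, ∑ s' ∈ S, ‖DD M (s' - s)‖ ^ 2 ≤ 2 * M * p / N * (pairs N S).card := by
  classical
  have hNR : (0 : ℝ) < N := by exact_mod_cast hN
  -- in terms of the Fourier transform
  have key : ((∑ j ∈ range M, ∑ j' ∈ range M,
      ‖∑ s ∈ S, ee (-(((j : ZMod p) - (j' : ZMod p)) * s))‖ ^ 2 : ℝ) : ℂ)
      = ((∑ s ∈ S, ∑ s' ∈ S, ‖DD M (s' - s)‖ ^ 2 : ℝ) : ℂ) := by
    push_cast
    have e1 : ∀ j j' : ℕ, ((‖∑ s ∈ S, ee (-(((j : ZMod p) - (j' : ZMod p)) * s))‖ : ℝ) : ℂ) ^ 2
        = ∑ s ∈ S, ∑ s' ∈ S, ee (((j : ZMod p) - (j' : ZMod p)) * (s' - s)) := by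
      intro j j'
      rw [← Complex.mul_conj', map_sum, Finset.sum_mul_sum]
      refine Finset.sum_congr rfl fun s _ => Finset.sum_congr rfl fun s' _ => ?_
      rw [ee_conj, ← ee_add]
      congr 1
      ring
    simp only [e1]
    have e2 : ∀ s s' : ZMod p, ((‖DD M (s' - s)‖ : ℝ) : ℂ) ^ 2
        = ∑ j ∈ range M, ∑ j' ∈ range M, ee (((j : ZMod p) - (j' : ZMod p)) * (s' - s)) := by
      intro s s'
      rw [← DD_sq]
      push_cast
      rfl
    simp only [e2]
    calc ∑ j ∈ range M, ∑ j' ∈ range M, ∑ s ∈ S, ∑ s' ∈ S,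
          ee (((j : ZMod p) - (j' : ZMod p)) * (s' - s))
        = ∑ j ∈ range M, ∑ s ∈ S, ∑ j' ∈ range M, ∑ s' ∈ S,
          ee (((j : ZMod p) - (j' : ZMod p)) * (s' - s)) :=
          Finset.sum_congr rfl fun j _ => Finset.sum_comm
      _ = ∑ s ∈ S, ∑ j ∈ range M, ∑ j' ∈ range M, ∑ s' ∈ S,
          ee (((j : ZMod p) - (j' : ZMod p)) * (s' - s)) := Finset.sum_comm
      _ = ∑ s ∈ S, ∑ j ∈ range M, ∑ s' ∈ S, ∑ j' ∈ range M,
          ee (((j : ZMod p) - (j' : ZMod p)) * (s' - s)) :=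
          Finset.sum_congr rfl fun s _ => Finset.sum_congr rfl fun j _ => Finset.sum_comm
      _ = _ := Finset.sum_congr rfl fun s _ => Finset.sum_comm
  have key' : ∑ j ∈ range M, ∑ j' ∈ range M,
      ‖∑ s ∈ S, ee (-(((j : ZMod p) - (j' : ZMod p)) * s))‖ ^ 2
      = ∑ s ∈ S, ∑ s' ∈ S, ‖DD M (s' - s)‖ ^ 2 := by exact_mod_cast key
  rw [← key']
  -- a majorant
  set G : ZMod p → ℝ := fun x => FF N x * ‖∑ s ∈ S, ee (-(x * s))‖ ^ 2 with hG
  have hG0 : ∀ x, 0 ≤ G x := fun x => mul_nonneg (FF_nonneg N x) (by positivity)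
  have h1 : ∀ j ∈ range M, ∑ j' ∈ range M,
      ‖∑ s ∈ S, ee (-(((j : ZMod p) - (j' : ZMod p)) * s))‖ ^ 2 ≤ ∑ x : ZMod p, G x := by
    intro j hj
    rw [Finset.mem_range] at hj
    have h2 : ∀ j' ∈ range M, ‖∑ s ∈ S, ee (-(((j : ZMod p) - (j' : ZMod p)) * s))‖ ^ 2 ≤
        G ((j : ZMod p) - (j' : ZMod p)) := by
      intro j' hj'
      rw [Finset.mem_range] at hj'
      have e1 : ((j : ZMod p) - (j' : ZMod p)) = (((j : ℤ) - (j' : ℤ) : ℤ) : ZMod p) := by
        push_cast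
        ring
      have h3 : 1 ≤ FF N ((j : ZMod p) - (j' : ZMod p)) := by
        rw [e1]
        apply one_le_FF N hN
        have h4 : |(j : ℤ) - (j' : ℤ)| ≤ M := by
          rw [abs_le]
          constructor <;> omega
        calc 8 * (N : ℤ) * |(j : ℤ) - (j' : ℤ)| ≤ 8 * (N : ℤ) * M :=
              mul_le_mul_of_nonneg_left h4 (by positivity)
          _ = ((8 * (N * M) : ℕ) : ℤ) := by push_cast; ring
          _ ≤ p := by exact_mod_cast h8
      simp only [hG]
      exact le_mul_of_one_le_left (by positivity) h3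
    refine (Finset.sum_le_sum h2).trans ?_
    have h3 : ∑ j' ∈ range M, G ((j : ZMod p) - (j' : ZMod p)) =
        ∑ x ∈ (range M).image (fun j' : ℕ => (j : ZMod p) - (j' : ZMod p)), G x := by
      rw [Finset.sum_image]
      intro a ha b hb hab
      simp only at hab
      have h4 : (a : ZMod p) = (b : ZMod p) := sub_right_injective hab
      rw [Finset.mem_coe, Finset.mem_range] at ha hb
      rw [ZMod.natCast_eq_natCast_iff'] at h4
      rwa [Nat.mod_eq_of_lt (ha.trans_le hM), Nat.mod_eq_of_lt (hb.trans_le hM)] at h4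
    rw [h3]
    exact Finset.sum_le_sum_of_subset_of_nonneg (Finset.subset_univ _) fun x _ _ => hG0 x
  have h2 : ∑ x : ZMod p, G x ≤ 2 / (N : ℝ) ^ 2 * (p * (N * (pairs N S).card)) := by
    have e1 : ∀ x : ZMod p, G x = 2 / (N : ℝ) ^ 2 *
        ‖∑ i ∈ range N ×ˢ S, (1 : ℂ) * ee (((i.1 : ZMod p) - i.2) * x)‖ ^ 2 := by
      intro x
      simp only [hG]
      unfold FF
      rw [mul_assoc]
      congr 1
      rw [← mul_pow, ← norm_mul]
      congr 2
      unfold DD
      rw [Finset.sum_mul_sum, Finset.sum_product]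
      refine Finset.sum_congr rfl fun j _ => Finset.sum_congr rfl fun s _ => ?_
      rw [one_mul, ← ee_add]
      congr 1
      ring
    rw [Finset.sum_congr rfl fun x _ => e1 x, ← Finset.mul_sum]
    refine mul_le_mul_of_nonneg_left ?_ (by positivity)
    refine (mean_square_le (p := p) (range N ×ˢ S) (fun _ => 1)
      (fun i => (i.1 : ZMod p) - i.2)).trans ?_
    refine mul_le_mul_of_nonneg_left ?_ (Nat.cast_nonneg _)
    simp only [norm_one, one_pow, mul_one]
    have h3 : ∑ i ∈ range N ×ˢ S, ((range N ×ˢ S).filter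
        fun j => (j.1 : ZMod p) - j.2 = (i.1 : ZMod p) - i.2).card ≤ N * (pairs N S).card := by
      rw [← Finset.card_sigma]
      have h4 : (range N ×ˢ pairs N S).card = N * (pairs N S).card := by
        rw [Finset.card_product, Finset.card_range]
      rw [← h4]
      refine Finset.card_le_card_of_injOn (fun r => (r.1.1, (r.1.2, r.2.2))) ?_ ?_
      · rintro ⟨⟨j, s⟩, ⟨j', s'⟩⟩ hr
        rw [Finset.mem_coe, Finset.mem_sigma, Finset.mem_product, Finset.mem_filter,
          Finset.mem_product, Finset.mem_range, Finset.mem_range] at hr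
        obtain ⟨⟨hj, hs⟩, ⟨⟨hj', hs'⟩, he⟩⟩ := hr
        simp only at hj hs hj' hs' he
        rw [Finset.mem_coe, Finset.mem_product, Finset.mem_range]
        refine ⟨hj, ?_⟩
        unfold pairs dif
        rw [Finset.mem_filter, Finset.mem_product, Finset.mem_image]
        refine ⟨⟨hs, hs'⟩, (j' : ℤ) - (j : ℤ), ?_, ?_⟩
        · rw [Finset.mem_Ioo]
          constructor <;> omega
        · simp only
          push_cast
          linear_combination he
      · rintro ⟨⟨j, s⟩, ⟨j', s'⟩⟩ hr ⟨⟨i, t⟩, ⟨i', t'⟩⟩ hr' hh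
        rw [Finset.mem_coe, Finset.mem_sigma, Finset.mem_product, Finset.mem_filter,
          Finset.mem_product, Finset.mem_range, Finset.mem_range] at hr hr'
        simp only [Prod.mk.injEq] at hh
        obtain ⟨rfl, rfl, rfl⟩ := hh
        obtain ⟨⟨hj, hs⟩, ⟨⟨hj', hs'⟩, he⟩⟩ := hr
        obtain ⟨⟨-, -⟩, ⟨⟨hi', -⟩, he'⟩⟩ := hr'
        simp only at hj' hi' he he'
        have h5 : (j' : ZMod p) = (i' : ZMod p) := by
          have := he.trans he'.symm
          linear_combination this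
        rw [ZMod.natCast_eq_natCast_iff'] at h5
        rw [Nat.mod_eq_of_lt (hj'.trans_le hNp), Nat.mod_eq_of_lt (hi'.trans_le hNp)] at h5
        subst h5
        rfl
    exact_mod_cast h3
  calc ∑ j ∈ range M, ∑ j' ∈ range M,
      ‖∑ s ∈ S, ee (-(((j : ZMod p) - (j' : ZMod p)) * s))‖ ^ 2
      ≤ ∑ _j ∈ range M, ∑ x : ZMod p, G x := Finset.sum_le_sum h1
    _ = M * ∑ x : ZMod p, G x := by rw [Finset.sum_const, Finset.card_range, nsmul_eq_mul]
    _ ≤ M * (2 / (N : ℝ) ^ 2 * (p * (N * (pairs N S).card))) :=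
        mul_le_mul_of_nonneg_left h2 (Nat.cast_nonneg _)
    _ = _ := by field_simp

end Pool.Agent.H424.LE
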