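import Pool.Agent.H424.LE.Pow
import Pool.Graph.R_pool_sql_team_seeded_f72693b1.W27.TQ.Main

/-! An arbitrary set with small local energy and a set nearly invariant under an arithmetic
progression. -/

set_option autoImplicit false

open Finset
open scoped Pointwise

namespace Pool.Agent.H424.LE

open Pool.Agent.W27.TP Pool.Agent.W27.BG
open Pool.Agent.W27.TQ (AP AP_card AP_mono shift_dilate)

/-- the local energy with respect to the progression of difference `v` and length `N` -/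
noncomputable def lquads {p : ℕ} (v : ZMod p) (N : ℕ) (A : Finset (ZMod p)) :
    Finset ((ZMod p × ZMod p) × (ZMod p × ZMod p)) :=
  ((A ×ˢ A) ×ˢ (A ×ˢ A)).filter fun t =>
    t.1.1 - t.1.2 = t.2.1 - t.2.2 ∧ t.1.1 - t.1.2 ∈ AP v N - AP v N

theorem mem_dif {p N : ℕ} {x : ZMod p} : x ∈ dif p N ↔ ∃ j : ℤ, |j| < N ∧ (j : ZMod p) = x := by
  unfold dif
  simp only [Finset.mem_image, Finset.mem_Ioo, abs_lt]

theorem mem_AP_sub {p N : ℕ} {v x : ZMod p} (j : ℤ) (hj : |j| < N) (hx : x = j * v) :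
    x ∈ AP v N - AP v N := by
  unfold AP
  rw [Finset.mem_sub]
  rw [abs_lt] at hj
  rcases le_total 0 j with h | h
  · obtain ⟨m, rfl⟩ := Int.eq_ofNat_of_zero_le h
    refine ⟨(m : ZMod p) * v, ?_, ((0 : ℕ) : ZMod p) * v, ?_, ?_⟩
    · rw [Finset.mem_image]
      exact ⟨m, by rw [Finset.mem_range]; omega, rfl⟩
    · rw [Finset.mem_image]
      exact ⟨0, by rw [Finset.mem_range]; omega, rfl⟩
    · rw [hx]
      push_cast
      ring
  · obtain ⟨m, hm⟩ := Int.eq_ofNat_of_zero_le (show 0 ≤ -j by omega)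
    have hj' : j = -(m : ℤ) := by omega
    subst hj'
    refine ⟨((0 : ℕ) : ZMod p) * v, ?_, (m : ZMod p) * v, ?_, ?_⟩
    · rw [Finset.mem_image]
      exact ⟨0, by rw [Finset.mem_range]; omega, rfl⟩
    · rw [Finset.mem_image]
      exact ⟨m, by rw [Finset.mem_range]; omega, rfl⟩
    · rw [hx]
      push_cast
      ring

/-- the local energy of an affine image -/
theorem quads_image {p : ℕ} [Fact p.Prime] (v t : ZMod p) (hv : v ≠ 0) (N : ℕ)
    (A : Finset (ZMod p)) :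
    (quads N (A.image fun a => (a + t) / v)).card ≤ (lquads v N A).card := by
  classical
  refine Finset.card_le_card_of_injOn
    (fun r => ((r.1.1 * v - t, r.1.2 * v - t), (r.2.1 * v - t, r.2.2 * v - t))) ?_ ?_
  · rintro ⟨⟨a, b⟩, ⟨c, d⟩⟩ hr
    rw [Finset.mem_coe] at hr
    unfold quads at hr
    rw [Finset.mem_filter, Finset.mem_product, Finset.mem_product, Finset.mem_product] at hr
    obtain ⟨⟨⟨ha, hb⟩, ⟨hc, hd⟩⟩, h1, h2⟩ := hr
    simp only at ha hb hc hd h1 h2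
    have key : ∀ x, x ∈ A.image (fun a => (a + t) / v) → x * v - t ∈ A := by
      intro x hx
      rw [Finset.mem_image] at hx
      obtain ⟨y, hy, rfl⟩ := hx
      have : (y + t) / v * v - t = y := by
        field_simp
        ring
      rw [this]
      exact hy
    rw [Finset.mem_coe]
    unfold lquads
    rw [Finset.mem_filter, Finset.mem_product, Finset.mem_product, Finset.mem_product]
    refine ⟨⟨⟨key a ha, key b hb⟩, ⟨key c hc, key d hd⟩⟩, ?_, ?_⟩
    · simp only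
      linear_combination v * h1
    · simp only
      rw [mem_dif] at h2
      obtain ⟨j, hj, e⟩ := h2
      refine mem_AP_sub j hj ?_
      rw [e]
      ring
  · rintro ⟨⟨a, b⟩, ⟨c, d⟩⟩ _ ⟨⟨a', b'⟩, ⟨c', d'⟩⟩ _ hh
    simp only [Prod.mk.injEq] at hh
    have key : ∀ x y : ZMod p, x * v - t = y * v - t → x = y := by
      intro x y h
      exact mul_right_cancel₀ hv (sub_left_injective h)
    obtain ⟨⟨h1, h2⟩, h3, h4⟩ := hh
    rw [key _ _ h1, key _ _ h2, key _ _ h3, key _ _ h4]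

theorem quads_le_cube {p : ℕ} [Fact p.Prime] (N : ℕ) (A : Finset (ZMod p)) :
    (quads N A).card ≤ A.card ^ 3 := by
  classical
  have h1 : (A ×ˢ (A ×ˢ A)).card = A.card ^ 3 := by
    rw [Finset.card_product, Finset.card_product]
    ring
  rw [← h1]
  refine Finset.card_le_card_of_injOn (fun r => (r.1.1, (r.1.2, r.2.1))) ?_ ?_
  · rintro ⟨⟨a, b⟩, ⟨c, d⟩⟩ hr
    rw [Finset.mem_coe] at hr
    unfold quads at hr
    rw [Finset.mem_filter, Finset.mem_product, Finset.mem_product, Finset.mem_product] at hr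
    obtain ⟨⟨⟨ha, hb⟩, ⟨hc, hd⟩⟩, h1, h2⟩ := hr
    rw [Finset.mem_coe, Finset.mem_product, Finset.mem_product]
    exact ⟨ha, hb, hc⟩
  · rintro ⟨⟨a, b⟩, ⟨c, d⟩⟩ hr ⟨⟨a', b'⟩, ⟨c', d'⟩⟩ hr' hh
    rw [Finset.mem_coe] at hr hr'
    unfold quads at hr hr'
    rw [Finset.mem_filter] at hr hr'
    simp only [Prod.mk.injEq] at hh
    obtain ⟨rfl, rfl, rfl⟩ := hh
    have h1 := hr.2.1
    have h2 := hr'.2.1
    simp only at h1 h2
    have h3 : d = d' := by
      have := h1.symm.trans h2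
      exact sub_right_injective this
    rw [h3]

/-- the mean bound for sets nearly invariant under an arithmetic progression -/
theorem ap_mean (ε : ℝ) (hε : 0 < ε) :
    ∃ δ : ℝ, 0 < δ ∧ ∃ P : ℕ, ∀ (p : ℕ) [Fact p.Prime], P ≤ p →
      ∀ (χ : DirichletCharacter ℂ p), χ ≠ 1 → ∀ N : ℕ, N ≤ p → (p : ℝ) ^ ε ≤ N →
        ∀ v : ZMod p, v ≠ 0 → ∀ A : Finset (ZMod p), (p : ℝ) ^ ε ≤ A.card →
          (p : ℝ) ^ (1 + ε) * (lquads v N A).card ≤ (A.card : ℝ) ^ 4 * (N : ℝ) ^ 2 →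
          ∀ Y : Finset (ZMod p), ((Y + AP v N).card : ℝ) ≤ (p : ℝ) ^ δ * Y.card →
          ∀ α : ZMod p → ℂ, (∀ a, ‖α a‖ ≤ 1) →
          ∑ y ∈ Y, ‖∑ a ∈ A, α a * χ (a + y)‖ ≤ (p : ℝ) ^ (-(2 * δ)) * (A.card * Y.card) := by
  classical
  obtain ⟨e, hedef⟩ : ∃ e : ℝ, e = min ε 1 / 4 := ⟨_, rfl⟩
  have hmin0 : 0 < min ε 1 := lt_min hε one_pos
  have he0 : 0 < e := by rw [hedef]; positivity
  have heε : 4 * e ≤ ε := by
    have := min_le_left ε 1
    rw [hedef]; linarith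
  have he1 : 4 * e ≤ 1 := by
    have := min_le_right ε 1
    rw [hedef]; linarith
  obtain ⟨η, hη, P, hP⟩ := line_pow e he0
  obtain ⟨P1, hP1⟩ := large_rpow e 4 he0
  refine ⟨η / 3, by positivity, P + P1 + 256, ?_⟩
  intro p _ hp χ hχ N hNp hN v hv A hA hAN Y hY α hα
  have hP1' := hP1 p (by omega)
  have hp1' : (1 : ℝ) < p := by exact_mod_cast (Fact.out : p.Prime).one_lt
  have hp1 : (1 : ℝ) ≤ p := hp1'.le
  have hp0 : (0 : ℝ) < p := by linarith
  have hA0 : (0 : ℝ) < A.card := lt_of_lt_of_le (by positivity) hA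
  -- the truncated length
  obtain ⟨N', hN'def⟩ : ∃ N' : ℕ, N' = min N (Nat.sqrt p) := ⟨_, rfl⟩
  have hN'N : N' ≤ N := by rw [hN'def]; exact min_le_left _ _
  have hN's : N' ≤ Nat.sqrt p := by rw [hN'def]; exact min_le_right _ _
  have hs16 : 16 ≤ Nat.sqrt p := by
    rw [Nat.le_sqrt]
    omega
  have hss : Nat.sqrt p * Nat.sqrt p ≤ p := Nat.sqrt_le p
  have hN'16 : 16 * N' ≤ p := by
    calc 16 * N' ≤ Nat.sqrt p * Nat.sqrt p := Nat.mul_le_mul hs16 hN's
      _ ≤ p := hss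
  have hsR : (p : ℝ) ^ (1 / 2 : ℝ) ≤ 2 * Nat.sqrt p := by
    rw [← Real.sqrt_eq_rpow]
    refine Real.sqrt_le_iff.2 ⟨by positivity, ?_⟩
    have h1 : p < (Nat.sqrt p + 1) * (Nat.sqrt p + 1) := Nat.lt_succ_sqrt p
    have h2 : (p : ℝ) < (Nat.sqrt p + 1) * (Nat.sqrt p + 1) := by exact_mod_cast h1
    have h3 : (16 : ℝ) ≤ Nat.sqrt p := by exact_mod_cast hs16
    nlinarith
  have hN'e : (p : ℝ) ^ e ≤ N' := by
    rw [hN'def, Nat.cast_min]
    refine le_min ?_ ?_
    · exact (Real.rpow_le_rpow_of_exponent_le hp1 (by linarith)).trans hN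
    · have h1 : (p : ℝ) ^ (2 * e) ≤ (p : ℝ) ^ (1 / 2 : ℝ) :=
        Real.rpow_le_rpow_of_exponent_le hp1 (by linarith)
      have h2 : (p : ℝ) ^ (2 * e) = (p : ℝ) ^ e * (p : ℝ) ^ e := by
        rw [← Real.rpow_add hp0]; congr 1; ring
      rw [h2] at h1
      have h3 : 2 * (p : ℝ) ^ e ≤ (p : ℝ) ^ e * (p : ℝ) ^ e :=
        mul_le_mul_of_nonneg_right (by linarith) (by positivity)
      linarith
  have hN'0 : (0 : ℝ) < N' := lt_of_lt_of_le (by positivity) hN'e
  have hN'1 : 1 ≤ N' := by exact_mod_cast hN'0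
  have hcardim : ∀ t : ZMod p, (A.image (fun a => (a + t) / v)).card = A.card := by
    intro t
    refine Finset.card_image_of_injOn ?_
    intro a _ b _ hab
    simp only at hab
    rw [div_left_inj' hv] at hab
    exact add_right_cancel hab
  have hAN' : ∀ t : ZMod p, (p : ℝ) ^ (1 + e) *
      (quads N' (A.image (fun a => (a + t) / v))).card ≤ (A.card : ℝ) ^ 4 * (N' : ℝ) ^ 2 := by
    intro t
    rcases le_total N (Nat.sqrt p) with h | h
    · have h0 : N' = N := by rw [hN'def]; exact min_eq_left h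
      rw [h0]
      refine le_trans ?_ hAN
      refine mul_le_mul ?_ ?_ (Nat.cast_nonneg _) (by positivity)
      · exact Real.rpow_le_rpow_of_exponent_le hp1 (by linarith)
      · exact_mod_cast quads_image v t hv N A
    · have h1 : N' = Nat.sqrt p := by rw [hN'def]; exact min_eq_right h
      have h2 : (p : ℝ) ≤ 4 * (N' * N') := by
        rw [← h1] at hsR
        have h3 : ((p : ℝ) ^ (1 / 2 : ℝ)) * ((p : ℝ) ^ (1 / 2 : ℝ)) = p := by
          rw [← Real.rpow_add hp0]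
          norm_num
        calc (p : ℝ) = ((p : ℝ) ^ (1 / 2 : ℝ)) * ((p : ℝ) ^ (1 / 2 : ℝ)) := h3.symm
          _ ≤ (2 * N') * (2 * N') := mul_le_mul hsR hsR (by positivity) (by positivity)
          _ = _ := by ring
      have h4 : (p : ℝ) ^ (1 + e) * 4 ≤ (A.card * (N' * N')) * 4 := by
        calc (p : ℝ) ^ (1 + e) * 4 ≤ (p : ℝ) ^ (1 + e) * (p : ℝ) ^ e :=
              mul_le_mul_of_nonneg_left hP1'.le (by positivity)
          _ = (p : ℝ) ^ (1 + 2 * e) := by
              rw [← Real.rpow_add hp0]; congr 1; ring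
          _ ≤ (p : ℝ) ^ (ε + 1) := Real.rpow_le_rpow_of_exponent_le hp1 (by linarith)
          _ = (p : ℝ) ^ ε * p := by rw [Real.rpow_add hp0, Real.rpow_one]
          _ ≤ A.card * (4 * (N' * N')) := mul_le_mul hA h2 (by positivity) (by positivity)
          _ = _ := by ring
      have h6 : (p : ℝ) ^ (1 + e) ≤ A.card * (N' * N') := le_of_mul_le_mul_right h4 (by norm_num)
      have h7 : ((quads N' (A.image (fun a => (a + t) / v))).card : ℝ) ≤ (A.card : ℝ) ^ 3 := by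
        have := quads_le_cube N' (A.image (fun a => (a + t) / v))
        rw [hcardim t] at this
        exact_mod_cast this
      calc (p : ℝ) ^ (1 + e) * (quads N' (A.image (fun a => (a + t) / v))).card
          ≤ (A.card * (N' * N')) * (A.card : ℝ) ^ 3 :=
            mul_le_mul h6 h7 (Nat.cast_nonneg _) (by positivity)
        _ = _ := by ring
  -- covering
  have hIcard : (AP v N').card = N' := AP_card v hv N' (hN'N.trans hNp)
  have hIne : (AP v N').Nonempty := by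
    rw [← Finset.card_pos, hIcard]
    exact hN'1
  have hYI : ((Y + AP v N').card : ℝ) ≤ (p : ℝ) ^ (η / 3) * Y.card := by
    refine le_trans ?_ hY
    exact_mod_cast Finset.card_le_card (Finset.add_subset_add_left (AP_mono v hN'N))
  obtain ⟨F, hFA, hFcard, hFcov⟩ := Finset.ruzsa_covering_add (A := Y) (B := AP v N')
    (K := (p : ℝ) ^ (η / 3) * Y.card / (AP v N').card) hIne (by
      rw [div_mul_cancel₀ _ (by rw [hIcard]; exact hN'0.ne')]
      exact hYI)
  have hFB : (F.card : ℝ) * N' ≤ (p : ℝ) ^ (η / 3) * Y.card := by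
    rw [hIcard] at hFcard
    rwa [le_div_iff₀ hN'0] at hFcard
  have hYsub : Y ⊆ (F ×ˢ Icc (-(N' : ℤ)) N').image (fun q => q.1 + (q.2 : ZMod p) * v) := by
    intro y hy
    have h1 := hFcov hy
    rw [Finset.mem_add] at h1
    obtain ⟨t, ht, d, hd, e1⟩ := h1
    rw [Finset.mem_sub] at hd
    obtain ⟨b, hb, b', hb', e2⟩ := hd
    unfold AP at hb hb'
    rw [Finset.mem_image] at hb hb'
    obtain ⟨j, hj, e3⟩ := hb
    obtain ⟨j', hj', e4⟩ := hb'
    rw [Finset.mem_range] at hj hj'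
    rw [Finset.mem_image]
    refine ⟨(t, (j : ℤ) - (j' : ℤ)), ?_, ?_⟩
    · rw [Finset.mem_product, Finset.mem_Icc]
      refine ⟨ht, ?_, ?_⟩ <;> simp only <;> omega
    · simp only
      rw [← e1, ← e2, ← e3, ← e4]
      push_cast
      ring
  have hsum : ∑ y ∈ Y, ‖∑ a ∈ A, α a * χ (a + y)‖
      ≤ ∑ t ∈ F, ∑ x ∈ Icc (-(N' : ℤ)) N', ‖∑ a ∈ A, α a * χ (a + (t + (x : ZMod p) * v))‖ := by
    calc ∑ y ∈ Y, ‖∑ a ∈ A, α a * χ (a + y)‖
        ≤ ∑ y ∈ (F ×ˢ Icc (-(N' : ℤ)) N').image (fun q => q.1 + (q.2 : ZMod p) * v),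
          ‖∑ a ∈ A, α a * χ (a + y)‖ :=
          Finset.sum_le_sum_of_subset_of_nonneg hYsub (fun _ _ _ => norm_nonneg _)
      _ ≤ ∑ q ∈ F ×ˢ Icc (-(N' : ℤ)) N', ‖∑ a ∈ A, α a * χ (a + (q.1 + (q.2 : ZMod p) * v))‖ :=
          Finset.sum_image_le_of_nonneg
            (f := fun y => ‖∑ a ∈ A, α a * χ (a + y)‖) (fun _ _ => norm_nonneg _)
      _ = _ := Finset.sum_product _ _ _
  refine hsum.trans ?_
  have hinner : ∀ t ∈ F, ∑ x ∈ Icc (-(N' : ℤ)) N',
      ‖∑ a ∈ A, α a * χ (a + (t + (x : ZMod p) * v))‖ ≤ (p : ℝ) ^ (-η) * (A.card * N') := by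
    intro t _
    have h1 := hP p (by omega) χ hχ N' hN'e hN'16 (A.image (fun a => (a + t) / v))
      (fun a => α (a * v - t)) (fun a => hα _) (by
        rw [hcardim t]
        exact (Real.rpow_le_rpow_of_exponent_le hp1 (by linarith)).trans hA) (by
        rw [hcardim t]
        exact hAN' t)
    rw [hcardim t] at h1
    refine le_trans ?_ h1
    exact Finset.sum_le_sum fun x _ => shift_dilate χ A α v t hv (x : ZMod p)
  calc ∑ t ∈ F, ∑ x ∈ Icc (-(N' : ℤ)) N', ‖∑ a ∈ A, α a * χ (a + (t + (x : ZMod p) * v))‖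
      ≤ ∑ _t ∈ F, (p : ℝ) ^ (-η) * (A.card * N') := Finset.sum_le_sum hinner
    _ = (p : ℝ) ^ (-η) * A.card * (F.card * N') := by
        rw [Finset.sum_const, nsmul_eq_mul]
        ring
    _ ≤ (p : ℝ) ^ (-η) * A.card * ((p : ℝ) ^ (η / 3) * Y.card) :=
        mul_le_mul_of_nonneg_left hFB (by positivity)
    _ = ((p : ℝ) ^ (-η) * (p : ℝ) ^ (η / 3)) * (A.card * Y.card) := by ring
    _ = (p : ℝ) ^ (-(2 * (η / 3))) * (A.card * Y.card) := by
        rw [← Real.rpow_add hp0]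
        congr 2
        ring

end Pool.Agent.H424.LE
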