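import Pool.Agent.H424.LE.Count
import Pool.Graph.R_pool_sql_team_seeded_f72693b1.W27.TQ.Pow

/-! Power saving over one interval for an arbitrary set with small local energy. -/

set_option autoImplicit false

namespace Pool.Agent.H424.LE

open Finset Pool.Agent.W27.TP Pool.Agent.W27.BG
open Pool.Agent.W27.TQ (RR line_bound numF)

/-- power saving over one interval -/
theorem line_pow (ε : ℝ) (hε : 0 < ε) :
    ∃ η : ℝ, 0 < η ∧ ∃ P : ℕ, ∀ (p : ℕ) [Fact p.Prime], P ≤ p →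
      ∀ (χ : DirichletCharacter ℂ p), χ ≠ 1 → ∀ N : ℕ, (p : ℝ) ^ ε ≤ N → 16 * N ≤ p →
        ∀ (A : Finset (ZMod p)) (α : ZMod p → ℂ), (∀ a, ‖α a‖ ≤ 1) → (p : ℝ) ^ ε ≤ A.card →
          (p : ℝ) ^ (1 + ε) * (quads N A).card ≤ (A.card : ℝ) ^ 4 * (N : ℝ) ^ 2 →
          ∑ x ∈ Icc (-(N : ℤ)) N, ‖∑ a ∈ A, α a * χ (a + (x : ZMod p))‖
            ≤ (p : ℝ) ^ (-η) * (A.card * N) := by
  classical
  obtain ⟨κ, hκdef⟩ : ∃ κ : ℝ, κ = min ε 1 / 8 := ⟨_, rfl⟩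
  have hmin0 : 0 < min ε 1 := lt_min hε one_pos
  have hκ0 : 0 < κ := by rw [hκdef]; positivity
  have hκε : 8 * κ ≤ ε := by
    have := min_le_left ε 1
    rw [hκdef]; linarith
  have hκ1 : 8 * κ ≤ 1 := by
    have := min_le_right ε 1
    rw [hκdef]; linarith
  obtain ⟨k, hk⟩ := exists_nat_ge (2 / κ)
  have hκk : 2 ≤ κ * k := by
    rw [div_le_iff₀ hκ0] at hk
    linarith
  have hk1 : 1 ≤ k := by
    rcases Nat.eq_zero_or_pos k with h | h
    · subst h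
      simp at hκk
      linarith
    · exact h
  have hkR : (1 : ℝ) ≤ k := by exact_mod_cast hk1
  obtain ⟨C, hC0, hC⟩ := Pool.Agent.H510R2.divisor_bound κ hκ0
  obtain ⟨C3, hC3⟩ : ∃ C3 : ℝ, C3 = (k : ℝ) ^ (2 * k) + (2 * k) ^ 2 := ⟨_, rfl⟩
  have hC30 : 0 ≤ C3 := by rw [hC3]; positivity
  have hC40 : 0 ≤ 24576 * C3 * (C + 1) := by positivity
  obtain ⟨P4, hP4⟩ := large_rpow (κ / 2) 2 (by positivity)
  obtain ⟨P5, hP5⟩ := large_rpow (κ / (8 * k)) (5 * (5 + (24576 * C3 * (C + 1) + 1))) (by positivity)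
  refine ⟨κ / (16 * k), by positivity, P4 + P5, ?_⟩
  intro p _ hp χ hχ N hN hN16 A α hα hA hAN
  have hP4' := hP4 p (by omega)
  have hP5' := hP5 p (by omega)
  have hpn : 2 ≤ p := (Fact.out : p.Prime).two_le
  have hp1 : (1 : ℝ) ≤ p := by exact_mod_cast (by omega : 1 ≤ p)
  have hp0 : (0 : ℝ) < p := by linarith
  obtain ⟨L, hLdef⟩ : ∃ L : ℕ, L = ⌊(p : ℝ) ^ κ⌋₊ := ⟨_, rfl⟩
  have hLle : (L : ℝ) ≤ (p : ℝ) ^ κ := by rw [hLdef]; exact Nat.floor_le (by positivity)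
  have hLlt : (p : ℝ) ^ κ < L + 1 := by rw [hLdef]; exact Nat.lt_floor_add_one _
  have hpk2 : 2 < (p : ℝ) ^ κ := by
    refine lt_of_lt_of_le hP4' ?_
    exact Real.rpow_le_rpow_of_exponent_le hp1 (by linarith)
  have hL1 : 1 ≤ L := by
    have h1 : (1 : ℝ) < L := by linarith
    exact_mod_cast h1.le
  have hLR : (1 : ℝ) ≤ L := by exact_mod_cast hL1
  have hL0 : (0 : ℝ) < L := by linarith
  have hLbig : (p : ℝ) ^ (κ / 2) ≤ L := by
    have e1 : (p : ℝ) ^ κ = (p : ℝ) ^ (κ / 2) * (p : ℝ) ^ (κ / 2) := by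
      rw [← Real.rpow_add hp0]; congr 1; ring
    rw [e1] at hLlt
    nlinarith [Real.rpow_pos_of_pos hp0 (κ / 2)]
  have hLp : L ≤ p := by
    have h1 : (L : ℝ) ≤ p := by
      calc (L : ℝ) ≤ (p : ℝ) ^ κ := hLle
        _ ≤ (p : ℝ) ^ (1 : ℝ) := Real.rpow_le_rpow_of_exponent_le hp1 (by linarith)
        _ = p := Real.rpow_one _
    exact_mod_cast h1
  have hLk : p ≤ L ^ k := by
    have h2 : (p : ℝ) ≤ (L : ℝ) ^ k := by
      calc (p : ℝ) = (p : ℝ) ^ (1 : ℝ) := (Real.rpow_one _).symm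
        _ ≤ (p : ℝ) ^ (κ / 2 * k) := Real.rpow_le_rpow_of_exponent_le hp1 (by linarith)
        _ = ((p : ℝ) ^ (κ / 2)) ^ k := by rw [Real.rpow_mul hp0.le, Real.rpow_natCast]
        _ ≤ (L : ℝ) ^ k := pow_le_pow_left₀ (by positivity) hLbig k
    exact_mod_cast h2
  have hLN : L ≤ N := by
    have h1 : (L : ℝ) ≤ N := by
      calc (L : ℝ) ≤ (p : ℝ) ^ κ := hLle
        _ ≤ (p : ℝ) ^ ε := Real.rpow_le_rpow_of_exponent_le hp1 (by linarith)
        _ ≤ N := hN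
    exact_mod_cast h1
  have hN1 : 1 ≤ N := hL1.trans hLN
  have hNR : (1 : ℝ) ≤ N := by exact_mod_cast hN1
  have hN0 : (0 : ℝ) < N := by linarith
  -- the parameters
  obtain ⟨Y0, hY0def⟩ : ∃ Y0 : ℕ, Y0 = N / L := ⟨_, rfl⟩
  have hY1 : 1 ≤ Y0 := by
    rw [hY0def, Nat.le_div_iff_mul_le hL1]
    omega
  have hLY : L * Y0 ≤ N := by rw [hY0def]; exact Nat.mul_div_le N L
  have hNY : N < 2 * L * Y0 := by
    have h1 : N < L * (Y0 + 1) := by
      rw [hY0def]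
      exact Nat.lt_mul_div_succ N hL1
    have h2 : L * (Y0 + 1) ≤ L * (2 * Y0) := Nat.mul_le_mul_left _ (by omega)
    have h3 : L * (2 * Y0) = 2 * L * Y0 := by ring
    omega
  obtain ⟨M, hMdef⟩ : ∃ M : ℕ, M = p / (16 * N) := ⟨_, rfl⟩
  have hM1 : 1 ≤ M := by
    rw [hMdef, Nat.le_div_iff_mul_le (by omega)]
    omega
  have hMN : 16 * N * M ≤ p := by rw [hMdef]; exact Nat.mul_div_le p (16 * N)
  have hpM : p < 32 * (N * M) := by
    have h1 : p < 16 * N * (M + 1) := by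
      rw [hMdef]
      exact Nat.lt_mul_div_succ p (by omega)
    have h2 : 16 * N * (M + 1) ≤ 16 * N * (2 * M) := Nat.mul_le_mul_left _ (by omega)
    have h3 : 16 * N * (2 * M) = 32 * (N * M) := by ring
    omega
  have hYN : Y0 ≤ N := by
    have : 1 * Y0 ≤ L * Y0 := Nat.mul_le_mul_right _ hL1
    omega
  have hMp : M ≤ p := by
    have : 1 * M ≤ 16 * N * M := Nat.mul_le_mul_right _ (by omega)
    omega
  have hYp : Y0 < p := by omega
  have hYM16 : 16 * (Y0 * M) ≤ p := by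
    have h1 : Y0 * M ≤ N * M := Nat.mul_le_mul_right _ hYN
    have h2 : 16 * N * M = 16 * (N * M) := by ring
    omega
  have hYM0 : 1 ≤ Y0 * M := Nat.mul_pos hY1 hM1
  have hYM : 2 * (Y0 * M) < p := by omega
  have h8 : 8 * (M * (2 * N)) ≤ p := by
    have : 8 * (M * (2 * N)) = 16 * N * M := by ring
    omega
  have h81 : 8 * (N * M) ≤ p := by
    have : 16 * N * M = 16 * (N * M) := by ring
    omega
  obtain ⟨T, hTdef⟩ : ∃ T : ℕ, T = ⌊C * (p : ℝ) ^ κ⌋₊ + 1 := ⟨_, rfl⟩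
  have hT1 : (1 : ℝ) ≤ T := by
    rw [hTdef]
    push_cast
    have : (0 : ℝ) ≤ (⌊C * (p : ℝ) ^ κ⌋₊ : ℝ) := Nat.cast_nonneg _
    linarith
  have hTle : (T : ℝ) ≤ (C + 1) * (p : ℝ) ^ κ := by
    rw [hTdef]
    push_cast
    have h1 : (⌊C * (p : ℝ) ^ κ⌋₊ : ℝ) ≤ C * (p : ℝ) ^ κ := Nat.floor_le (by positivity)
    have h2 : (1 : ℝ) ≤ (p : ℝ) ^ κ := by linarith
    rw [add_mul, one_mul]
    linarith
  have hT : ∀ m : ℕ, 1 ≤ m → m ≤ Y0 * M → m.divisors.card ≤ T := by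
    intro m hm1 hm2
    have h1 := hC m hm1
    have h2 : (m : ℝ) ≤ p := by
      have : m ≤ p := by omega
      exact_mod_cast this
    have h3 : (m.divisors.card : ℝ) ≤ C * (p : ℝ) ^ κ :=
      h1.trans (mul_le_mul_of_nonneg_left (Real.rpow_le_rpow (Nat.cast_nonneg _) h2 hκ0.le) hC0.le)
    have h4 := Nat.le_floor h3
    omega
  obtain ⟨y, hy1, hyY, hyR⟩ := exists_shift (p := p) Y0 M T (2 * N) N hY1 hM1 hMp hYp hYM h8
    hN1 (by omega) h81 hT A (Bad2 L χ ((L : ℝ) ^ (1 - 1 / (2 * (k : ℝ)))))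
  have hy0 : (y : ZMod p) ≠ 0 := by
    intro h
    rw [ZMod.natCast_eq_zero_iff] at h
    have := Nat.le_of_dvd (by omega) h
    omega
  have hmain := line_bound (p := p) N L hL1 y hy0 ((Nat.mul_le_mul_left _ hyY).trans hLY) χ
    ((L : ℝ) ^ (1 - 1 / (2 * (k : ℝ)))) (by positivity) A α hα
  have hR0 : 0 ≤ RR (2 * N) A (Bad2 L χ ((L : ℝ) ^ (1 - 1 / (2 * (k : ℝ))))) (y : ZMod p) := by
    unfold RR
    exact Finset.sum_nonneg fun _ _ => Finset.sum_nonneg fun _ _ => Nat.cast_nonneg _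
  generalize RR (2 * N) A (Bad2 L χ ((L : ℝ) ^ (1 - 1 / (2 * (k : ℝ))))) (y : ZMod p) = R
    at hmain hyR hR0
  have hZ := bad2_small L hLp hL1 k hk1 hLk χ hχ
  rw [← hC3] at hZ
  have ha0 : (0 : ℝ) < A.card := lt_of_lt_of_le (by positivity) hA
  have hQ0 : (0 : ℝ) ≤ (quads N A).card := Nat.cast_nonneg _
  have hEE := EQ_le p N M Y0 T (by omega) hN1 hM1 hpM A.card (quads N A).card ha0.le hQ0
  have hEE0 : 0 ≤ EQ p Y0 M T N A.card (quads N A).card := by unfold EQ; positivity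
  have hYR : (0 : ℝ) < Y0 := by exact_mod_cast hY1
  have hnY : (N : ℝ) ≤ 2 * L * Y0 := by exact_mod_cast hNY.le
  have h1 := hyR.trans (mul_le_mul hZ hEE hEE0 (by positivity))
  have hRle := numR p κ ε L T Y0 N A.card (quads N A).card R C C3 hp1 hκε hε hLR hLle hT1 hTle hC0
    hC30 hYR hN0 ha0 hnY hQ0 hA hAN hR0 h1
  exact numF p κ ε L N A.card R (24576 * C3 * (C + 1)) _ k hk1 hp1 hκ0 hκε hL0 hLbig hNR ha0 hC40
    hRle hR0 hP5' hmain

end Pool.Agent.H424.LE
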